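import Mathlib

set_option autoImplicit false

namespace Pool.Agent.H.MP_98d06d_al

universe u v

open Pointwise

/-- Families of automorphisms of chains, multiplied left to right. -/
@[ext] structure Aut {ι : Type v} {G : Type u} (o : ι → LinearOrder G) where
  f : ι → G → G
  g : ι → G → G
  iff : ∀ i x y, (o i).le (f i x) y ↔ (o i).le x (g i y)
  iff' : ∀ i x y, (o i).le y (f i x) ↔ (o i).le (g i y) x

section
variable {ι : Type v} {G : Type u} {o : ι → LinearOrder G}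

lemma Aut.gf (a : Aut o) (i : ι) (x : G) : a.g i (a.f i x) = x :=
  (o i).le_antisymm _ _ ((a.iff' i _ _).1 ((o i).le_refl _)) ((a.iff i _ _).1 ((o i).le_refl _))

lemma Aut.fg (a : Aut o) (i : ι) (x : G) : a.f i (a.g i x) = x :=
  (o i).le_antisymm _ _ ((a.iff i _ _).2 ((o i).le_refl _)) ((a.iff' i _ _).2 ((o i).le_refl _))

lemma Aut.ext1 {a b : Aut o} (h : ∀ i x, a.f i x = b.f i x) : a = b := by
  refine Aut.ext (funext₂ h) (funext₂ fun i x => ?_)
  rw [← b.gf i (a.g i x), ← h, a.fg]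

instance : Mul (Aut o) := ⟨fun a b => ⟨fun i x => b.f i (a.f i x), fun i x => a.g i (b.g i x),
  fun i x y => by rw [b.iff, a.iff], fun i x y => by rw [b.iff', a.iff']⟩⟩
instance : One (Aut o) := ⟨⟨fun _ x => x, fun _ x => x, fun _ _ _ => Iff.rfl, fun _ _ _ => Iff.rfl⟩⟩
instance : Inv (Aut o) := ⟨fun a => ⟨a.g, a.f, fun i x y => (a.iff' i y x).symm,
  fun i x y => (a.iff i y x).symm⟩⟩
instance : Group (Aut o) := Group.ofLeftAxioms (fun _ _ _ => rfl) (fun _ => rfl)
  fun a => Aut.ext1 fun i x => a.fg i x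

instance : Lattice (Aut o) where
  le a b := ∀ i x, (o i).le (a.f i x) (b.f i x)
  le_refl a i x := (o i).le_refl _
  le_trans a b c h1 h2 i x := (o i).le_trans _ _ _ (h1 i x) (h2 i x)
  le_antisymm a b h1 h2 := Aut.ext1 fun i x => (o i).le_antisymm _ _ (h1 i x) (h2 i x)
  sup a b := ⟨fun i x => (o i).max (a.f i x) (b.f i x), fun i x => (o i).min (a.g i x) (b.g i x),
    fun i x y => by letI := o i; exact max_le_iff.trans (by rw [le_min_iff]; exact and_congr (a.iff ..) (b.iff ..)),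
    fun i x y => by letI := o i; exact le_max_iff.trans (by rw [min_le_iff]; exact or_congr (a.iff' ..) (b.iff' ..))⟩
  inf a b := ⟨fun i x => (o i).min (a.f i x) (b.f i x), fun i x => (o i).max (a.g i x) (b.g i x),
    fun i x y => by letI := o i; exact min_le_iff.trans (by rw [le_max_iff]; exact or_congr (a.iff ..) (b.iff ..)),
    fun i x y => by letI := o i; exact le_min_iff.trans (by rw [max_le_iff]; exact and_congr (a.iff' ..) (b.iff' ..))⟩
  le_sup_left a b i x := by letI := o i; exact le_max_left _ _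
  le_sup_right a b i x := by letI := o i; exact le_max_right _ _
  sup_le a b c h1 h2 i x := by letI := o i; exact max_le (h1 i x) (h2 i x)
  inf_le_left a b i x := by letI := o i; exact min_le_left _ _
  inf_le_right a b i x := by letI := o i; exact min_le_right _ _
  le_inf a b c h1 h2 i x := by letI := o i; exact le_min (h1 i x) (h2 i x)

instance : MulLeftMono (Aut o) := ⟨fun c _ _ h i x => h i (c.f i x)⟩
instance : MulRightMono (Aut o) := ⟨fun c a b h i x => (c.iff i _ _).2 (by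
  change (o i).le _ (c.g i (c.f i _))
  rw [c.gf]; exact h i x)⟩
end

section
variable {G : Type u} [Group G] [PartialOrder G] [MulLeftMono G] [MulRightMono G]
  {K : Type v} [Group K] [Lattice K] [MulLeftMono K] [MulRightMono K]

lemma glb_un {S : Set G} {s : G} (h : IsGLB S s) (T : G → Set G) (hT : ∀ x ∈ S, IsGLB (T x) 1) :
    IsGLB {y | ∃ x ∈ S, ∃ t ∈ T x, y = s⁻¹ * x * t} 1 := by
  constructor
  · rintro _ ⟨x, hx, t, ht, rfl⟩
    exact one_le_mul (le_inv_mul_iff_mul_le.2 (by simpa using h.1 hx)) ((hT x hx).1 ht)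
  · intro d hd
    have : s * d ≤ s := h.2 fun x hx => by
      have : (s⁻¹ * x)⁻¹ * d ≤ 1 := (hT x hx).2 fun t ht =>
        inv_mul_le_iff_le_mul.2 (hd ⟨x, hx, t, ht, rfl⟩)
      rw [inv_mul_le_iff_le_mul, mul_one, le_inv_mul_iff_mul_le] at this
      exact this
    simpa using this

variable (φ : G →* K)

def small (v : K) : Prop := ∃ S : Set G, IsGLB S 1 ∧ ∀ s ∈ S, v ≤ φ s

variable {φ}

lemma small.mul {v w : K} (h1 : small φ v) (h2 : small φ w) : small φ (v * w) := by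
  obtain ⟨S, hS, h1⟩ := h1
  obtain ⟨T, hT, h2⟩ := h2
  refine ⟨_, glb_un hS (fun _ => T) fun _ _ => hT, ?_⟩
  rintro _ ⟨x, hx, t, ht, rfl⟩
  simpa using mul_le_mul' (h1 x hx) (h2 t ht)

omit [MulLeftMono G] [MulRightMono G] [MulLeftMono K] [MulRightMono K] in
lemma small.mono {v w : K} (h1 : small φ v) (h : w ≤ v) : small φ w :=
  h1.imp fun _ h1 => ⟨h1.1, fun s hs => h.trans (h1.2 s hs)⟩

omit [MulLeftMono G] [MulRightMono G] [MulLeftMono K] [MulRightMono K] in
lemma small_of_le {v : K} (h : v ≤ 1) : small φ v := ⟨{1}, isGLB_singleton, by simpa using h⟩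

lemma small.sup (hφ : Monotone φ) {v w : K} (h1 : small φ v) (h2 : small φ w) : small φ (v ⊔ w) := by
  have key : ∀ {v : K}, small φ v → small φ (v ⊔ 1) := fun ⟨S, hS, h⟩ =>
    ⟨S, hS, fun s hs => sup_le (h s hs) (by simpa using hφ (hS.1 hs))⟩
  refine ((key h1).mul (key h2)).mono (sup_le ?_ ?_)
  · exact le_sup_left.trans (le_mul_of_one_le_right' le_sup_right)
  · exact le_sup_left.trans (le_mul_of_one_le_left' le_sup_right)

variable (φ) in
def good : Subgroup K where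
  carrier := {k | ∀ v, small φ v → small φ (k⁻¹ * v * k) ∧ small φ (k * v * k⁻¹)}
  one_mem' v h := by simpa using h
  inv_mem' {k} h v hv := by simpa using (h v hv).symm
  mul_mem' {a b} ha hb v hv := ⟨by simpa [mul_assoc] using (hb _ (ha v hv).1).1,
    by simpa [mul_assoc] using (ha _ (hb v hv).2).2⟩

lemma good_sup (hφ : Monotone φ) {a b : K} (ha : a ∈ good φ) (hb : b ∈ good φ) : a ⊔ b ∈ good φ := by
  intro v hv
  refine ⟨((ha v hv).1.sup hφ (hb v hv).1).mono ?_, ((ha v hv).2.sup hφ (hb v hv).2).mono ?_⟩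
  · rw [mul_sup]
    exact sup_le_sup (mul_le_mul' (mul_le_mul' (inv_le_inv_iff.2 le_sup_left) le_rfl) le_rfl)
      (mul_le_mul' (mul_le_mul' (inv_le_inv_iff.2 le_sup_right) le_rfl) le_rfl)
  · rw [sup_mul, sup_mul]
    exact sup_le_sup (mul_le_mul' le_rfl (inv_le_inv_iff.2 le_sup_left))
      (mul_le_mul' le_rfl (inv_le_inv_iff.2 le_sup_right))

lemma good_inf (hφ : Monotone φ) {a b : K} (ha : a ∈ good φ) (hb : b ∈ good φ) : a ⊓ b ∈ good φ := by
  have := inv_mem (good_sup hφ (inv_mem ha) (inv_mem hb))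
  rwa [inv_sup, inv_inv, inv_inv] at this

omit [MulLeftMono K] [MulRightMono K] in
lemma conj_small [MulLeftMono K] [MulRightMono K] (g : G) {v : K} (h : small φ v) :
    small φ ((φ g)⁻¹ * v * φ g) := by
  obtain ⟨S, hS, h⟩ := h
  refine ⟨(fun s => g⁻¹ * s * g) '' S, ⟨?_, fun d hd => ?_⟩, ?_⟩
  · rintro _ ⟨s, hs, rfl⟩
    calc (1 : G) = g⁻¹ * 1 * g := by simp
      _ ≤ g⁻¹ * s * g := by gcongr; exact hS.1 hs
  · have : g * d * g⁻¹ ≤ 1 := hS.2 fun s hs => by
      calc g * d * g⁻¹ ≤ g * (g⁻¹ * s * g) * g⁻¹ := by gcongr; exact hd ⟨s, hs, rfl⟩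
        _ = s := by group
    calc d = g⁻¹ * (g * d * g⁻¹) * g := by group
      _ ≤ g⁻¹ * 1 * g := by gcongr
      _ = 1 := by simp
  · rintro _ ⟨s, hs, rfl⟩
    simp only [map_mul, map_inv]
    gcongr; exact h s hs

lemma good_phi (g : G) : φ g ∈ good φ := fun _ hv =>
  ⟨conj_small g hv, by simpa using conj_small g⁻¹ hv⟩

variable (φ) in
def NN : Subgroup (good φ) where
  carrier := {k | small φ (k : K) ∧ small φ (k⁻¹ : K)}
  one_mem' := ⟨small_of_le le_rfl, small_of_le (by simp)⟩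
  inv_mem' h := ⟨h.2, by simpa using h.1⟩
  mul_mem' h1 h2 := ⟨h1.1.mul h2.1, by simpa using h2.2.mul h1.2⟩

instance : (NN φ).Normal := ⟨fun _ h k => ⟨(k.2 _ h.1).2, by simpa [mul_assoc] using (k.2 _ h.2).2⟩⟩

theorem quot (hφ : ∀ a b, φ a ≤ φ b ↔ a ≤ b) : ∃ (H : Type v) (_ : Group H) (_ : Lattice H),
    (∀ a b c : H, a ≤ b → c * a ≤ c * b ∧ a * c ≤ b * c) ∧ ∃ ψ : G →* H,
      (∀ a b, ψ a ≤ ψ b ↔ a ≤ b) ∧ ∀ (S : Set G) (s : G), IsGLB S s → IsGLB (ψ '' S) (ψ s) := by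
  have mono : Monotone φ := fun a b h => (hφ a b).2 h
  let R : good φ → good φ → Prop := fun a b => small φ ((b : K)⁻¹ * a)
  have Rt : ∀ {a b c}, R a b → R b c → R a c := fun h1 h2 => by
    simpa [R, mul_assoc] using small.mul h2 h1
  have Rl : ∀ {a b : good φ}, (a : K) ≤ b → R a b := fun h => small_of_le (by simpa using h)
  have Re : ∀ {a b : good φ}, (a : good φ ⧸ NN φ) = b ↔ R b a ∧ R a b := fun {a b} => by
    rw [QuotientGroup.eq]
    exact and_congr Iff.rfl (by simp [R])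
  let L : good φ ⧸ NN φ → good φ ⧸ NN φ → Prop := fun x y => R x.out y.out
  have Ro : ∀ a : good φ, R a (a : good φ ⧸ NN φ).out ∧ R (a : good φ ⧸ NN φ).out a := fun a =>
    Re.1 (QuotientGroup.out_eq' _)
  have Lm : ∀ a b : good φ, L a b ↔ R a b := fun a b =>
    ⟨fun h => Rt (Ro a).1 (Rt h (Ro b).2), fun h => Rt (Ro a).2 (Rt h (Ro b).1)⟩
  have L1 : ∀ x (b : good φ), L x b ↔ R x.out b := fun x b => by
    rw [← Lm, QuotientGroup.out_eq']
  have L2 : ∀ (a : good φ) y, L a y ↔ R a y.out := fun a y => by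
    rw [← Lm, QuotientGroup.out_eq']
  let lat : Lattice (good φ ⧸ NN φ) :=
    { le := L
      le_refl := fun x => Rl le_rfl
      le_trans := fun _ _ _ => Rt
      le_antisymm := fun x y h1 h2 => by
        rw [← QuotientGroup.out_eq' x, ← QuotientGroup.out_eq' y]; exact Re.2 ⟨h2, h1⟩
      sup := fun x y => ((⟨x.out ⊔ y.out, good_sup mono x.out.2 y.out.2⟩ : good φ) : good φ ⧸ NN φ)
      inf := fun x y => ((⟨x.out ⊓ y.out, good_inf mono x.out.2 y.out.2⟩ : good φ) : good φ ⧸ NN φ)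
      le_sup_left := fun x y => (L1 _ _).2 (Rl le_sup_left)
      le_sup_right := fun x y => (L1 _ _).2 (Rl le_sup_right)
      sup_le := fun x y z h1 h2 => (L2 _ _).2 (by
        simpa only [R, mul_sup] using small.sup mono h1 h2)
      inf_le_left := fun x y => (L2 _ _).2 (Rl inf_le_left)
      inf_le_right := fun x y => (L2 _ _).2 (Rl inf_le_right)
      le_inf := fun x y z h1 h2 => (L1 _ _).2 (by
        simpa only [R, inv_inf, sup_mul] using small.sup mono h1 h2) }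
  let ψ : G →* good φ ⧸ NN φ := (QuotientGroup.mk' _).comp (φ.codRestrict _ good_phi)
  have hψ : ∀ a b, L (ψ a) (ψ b) ↔ a ≤ b := fun a b => (Lm _ _).trans
    ⟨fun ⟨S, hS, h⟩ => by
      have : b⁻¹ * a ≤ 1 := hS.2 fun s hs => (hφ _ _).1 (by simpa using h s hs)
      simpa using this, fun h => Rl (mono h)⟩
  refine ⟨good φ ⧸ NN φ, inferInstance, lat, fun x y z h => ?_, ψ, hψ, fun S s hS => ⟨?_, ?_⟩⟩
  · induction x using QuotientGroup.induction_on with | H a =>
    induction y using QuotientGroup.induction_on with | H b =>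
    induction z using QuotientGroup.induction_on with | H c =>
    have h' := (Lm a b).1 h
    exact ⟨(Lm (c * a) (c * b)).2 (by simpa [R, mul_assoc] using h'),
      (Lm (a * c) (b * c)).2 (by simpa [R, mul_assoc] using (c.2 _ h').1)⟩
  · rintro _ ⟨x, hx, rfl⟩
    exact (hψ _ _).2 (hS.1 hx)
  · intro k hk
    have : ∀ x ∈ S, ∃ T, IsGLB T 1 ∧ ∀ t ∈ T, (φ x)⁻¹ * k.out ≤ φ t := fun x hx =>
      (L1 _ _).1 (hk ⟨x, hx, rfl⟩)
    choose! T h1 h2 using this
    refine (L1 _ _).2 ⟨_, glb_un hS T h1, ?_⟩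
    rintro _ ⟨x, hx, t, ht, rfl⟩
    have := inv_mul_le_iff_le_mul.1 (h2 x hx t ht)
    simpa [mul_assoc] using this
end

theorem main {G : Type u} [Group G] [PartialOrder G]
    (hG : ∀ a b c : G, a ≤ b → c * a ≤ c * b ∧ a * c ≤ b * c)
    {ι : Type v} (o : ι → LinearOrder G) (ho : ∀ i (a b c : G), (o i).le a b → (o i).le (a * c) (b * c))
    (hi : ∀ a b : G, a ≤ b ↔ ∀ i, (o i).le a b) :
    ∃ (H : Type (max u v)) (_ : Group H) (_ : Lattice H),
      (∀ a b c : H, a ≤ b → c * a ≤ c * b ∧ a * c ≤ b * c) ∧ ∃ ψ : G →* H,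
        Function.Injective ψ ∧ (∀ a b, a ≤ b ↔ ψ a ≤ ψ b) ∧
        (∀ (S : Set G) (s : G), IsLUB S s → IsLUB (ψ '' S) (ψ s)) ∧
        ∀ (S : Set G) (s : G), IsGLB S s → IsGLB (ψ '' S) (ψ s) := by
  haveI : MulLeftMono G := ⟨fun c a b h => (hG a b c h).1⟩
  haveI : MulRightMono G := ⟨fun c a b h => (hG a b c h).2⟩
  let φ : G →* Aut o := MonoidHom.mk' (fun g => ⟨fun _ x => x * g, fun _ x => x * g⁻¹,
    fun i x y => ⟨fun h => by simpa using ho i _ _ g⁻¹ h, fun h => by simpa using ho i _ _ g h⟩,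
    fun i x y => ⟨fun h => by simpa using ho i _ _ g⁻¹ h, fun h => by simpa using ho i _ _ g h⟩⟩)
    fun a b => Aut.ext1 fun i x => (mul_assoc x a b).symm
  obtain ⟨H, _, _, hH, ψ, h1, h2⟩ := quot (φ := φ) fun a b =>
    ⟨fun h => (hi a b).2 fun i => by simpa [φ] using h i 1,
      fun h i x => (hi _ _).1 (hG a b x h).1 i⟩
  haveI : MulLeftMono H := ⟨fun c a b h => (hH a b c h).1⟩
  haveI : MulRightMono H := ⟨fun c a b h => (hH a b c h).2⟩
  refine ⟨H, inferInstance, inferInstance, hH, ψ, fun a b e => le_antisymm ((h1 _ _).1 e.le)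
    ((h1 _ _).1 e.ge), fun a b => (h1 a b).symm, fun S s hS => ?_, h2⟩
  have := h2 S⁻¹ s⁻¹ (isGLB_inv'.2 hS)
  rw [map_inv, ← isGLB_inv'] at *
  convert this using 1
  ext y; simp only [Set.mem_inv, Set.mem_image]
  exact ⟨fun ⟨x, hx, e⟩ => ⟨x⁻¹, by simpa using hx, by simp [e]⟩,
    fun ⟨x, hx, e⟩ => ⟨x⁻¹, hx, by simp [e]⟩⟩

end Pool.Agent.H.MP_98d06d_al
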